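import Pool.Agent.Helper47.Geo.Classify

set_option autoImplicit false

namespace Pool.Agent.Results.MP_c38b8d_lc.BothRedundantIff

open Pool.Agent.Helper28.Geo
open Pool.Agent.Helper47.Geo

/-- For every algebraic theory `E` there is a sentence `a` such that both `a` and its negation are
redundant exactly when `E` is not collapsing; then decidability of equality is redundant and its
negation is true in the generic model (and so redundant too). The empty theory over the empty
signature is not collapsing. -/
theorem result :
    (¬ Collapsing (∅ : Theory emptySig)) ∧
    ∀ (S : Sig) (E : Theory S),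
      ((∃ a : Form S 0, Redundant E a ∧ Redundant E (.imp a .bot)) ↔ ¬ Collapsing E) ∧
      (¬ Collapsing E → Redundant E (dec S) ∧ Redundant E (.imp (dec S) .bot) ∧
        TrueInGeneric E (.imp (dec S) .bot) ∧ ¬ TrueInGeneric E (dec S)) :=
  ⟨not_collapsing_empty, fun _ E => ⟨both_iff E, fun h =>
    ⟨dec_redundant E, redundant_of_true (not_dec_of_not_collapsing h), not_dec_of_not_collapsing h,
      not_dec_true_of_not_collapsing h⟩⟩⟩

end Pool.Agent.Results.MP_c38b8d_lc.BothRedundantIff
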