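import Pool.Agent.Helper47.Geo.Classify

set_option autoImplicit false

namespace Pool.Agent.Results.MP_c38b8d_lc.RedundantTrueIff

open Pool.Agent.Helper28.Geo
open Pool.Agent.Helper47.Geo

/-- There are an algebraic theory and a redundant sentence which is not true in its generic model.
In fact this holds for every algebraic theory `E`, except when `E` proves that all elements are equal
and the signature has a constant: exactly for these theories every redundant sentence is true in the
generic model. The witness is decidability of equality, which is redundant for every `E` and true in
the generic model only if `E` proves that all elements are equal. -/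
theorem result :
    (∃ (S : Sig) (E : Theory S) (a : Form S 0), Redundant E a ∧ ¬ TrueInGeneric E a) ∧
    ∀ (S : Sig) (E : Theory S),
      ((∀ a : Form S 0, Redundant E a → TrueInGeneric E a) ↔
        (Prf (axioms E) [] (allEq S) ∧ ∃ c : S.Op, S.ar c = 0)) ∧
      Redundant E (dec S) ∧ (TrueInGeneric E (dec S) ↔ Prf (axioms E) [] (allEq S)) :=
  ⟨⟨emptySig, ∅, dec emptySig, dec_redundant _, dec_not_true⟩,
    fun _ E => ⟨classification E, dec_redundant E, dec_true_iff_allEq E⟩⟩

end Pool.Agent.Results.MP_c38b8d_lc.RedundantTrueIff
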